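import Pool.Agent.TH563.UV.Geo
import Pool.Agent.W293.HT.CP1

/-!
# Mirror images: the reflection `w ↦ - conj w`
-/

set_option autoImplicit false

namespace Pool.Agent.N494.M1

open Finset Filter Topology Metric
open Pool.Agent.W711.HT hiding XX
open Pool.Agent.TH563.UV
open Pool.Agent.W293.HT (GH)
open scoped Real

/-- the reflection in the imaginary axis -/
noncomputable def rf (w : ℂ) : ℂ := -(starRingEnd ℂ) w

@[simp] theorem rf_rf (w : ℂ) : rf (rf w) = w := by
  simp [rf]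

theorem rf_re (w : ℂ) : (rf w).re = -w.re := by
  simp [rf]

theorem rf_im (w : ℂ) : (rf w).im = w.im := by
  simp [rf]

@[simp] theorem norm_rf (w : ℂ) : ‖rf w‖ = ‖w‖ := by
  simp [rf]

@[simp] theorem rf_zero : rf 0 = 0 := by
  simp [rf]

theorem rf_sub (w z : ℂ) : rf (w - z) = rf w - rf z := by
  simp [rf]; ring

theorem rf_neg (w : ℂ) : rf (-w) = -rf w := by
  simp [rf]

theorem rf_mem (ρ τ : ℝ) (w : ℂ) : rf w ∈ Rc ρ τ ↔ w ∈ Rc ρ τ := by
  simp only [Rc, Set.mem_ofPred_eq, rf_re, rf_im, abs_neg]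

/-- the mirror image of a function -/
noncomputable def mr (f : ℂ → ℂ) (w : ℂ) : ℂ := (starRingEnd ℂ) (f (rf w))

@[simp] theorem mr_mr (f : ℂ → ℂ) : mr (mr f) = f := by
  funext w
  simp [mr]

theorem mr_eq (f : ℂ → ℂ) : mr f = (starRingEnd ℂ) ∘ (fun w => f (-w)) ∘ (starRingEnd ℂ) := rfl

theorem hasDerivAt_mr {f : ℂ → ℂ} {f' w : ℂ} (h : HasDerivAt f f' (rf w)) :
    HasDerivAt (mr f) (-(starRingEnd ℂ) f') w := by
  rw [mr_eq, hasDerivAt_conj_conj_iff]
  have h1 : HasDerivAt (fun w : ℂ => f (-w)) (f' * (-1)) ((starRingEnd ℂ) w) :=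
    HasDerivAt.comp ((starRingEnd ℂ) w) (h₂ := f) (h := fun w => -w) h (hasDerivAt_neg _)
  have e : (starRingEnd ℂ) (-(starRingEnd ℂ) f') = f' * (-1) := by
    rw [map_neg, Complex.conj_conj]
    ring
  rw [e]
  exact h1

theorem differentiableAt_mr {f : ℂ → ℂ} {w : ℂ} (h : DifferentiableAt ℂ f (rf w)) :
    DifferentiableAt ℂ (mr f) w :=
  (hasDerivAt_mr h.hasDerivAt).differentiableAt

theorem deriv_mr (f : ℂ → ℂ) (w : ℂ) : deriv (mr f) w = -(starRingEnd ℂ) (deriv f (rf w)) := by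
  by_cases h : DifferentiableAt ℂ f (rf w)
  · exact (hasDerivAt_mr h.hasDerivAt).deriv
  · have h1 : ¬ DifferentiableAt ℂ (mr f) w := by
      intro h2
      apply h
      have h3 : DifferentiableAt ℂ (mr (mr f)) (rf w) := by
        apply differentiableAt_mr
        rwa [rf_rf]
      rwa [mr_mr] at h3
    rw [deriv_zero_of_not_differentiableAt h, deriv_zero_of_not_differentiableAt h1]
    simp

theorem deriv_deriv_mr (f : ℂ → ℂ) (w : ℂ) :
    deriv (deriv (mr f)) w = (starRingEnd ℂ) (deriv (deriv f) (rf w)) := by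
  have h : deriv (mr f) = fun w => -(mr (deriv f) w) := by
    funext w
    rw [deriv_mr]
    rfl
  rw [h, deriv.fun_neg, deriv_mr, neg_neg]

theorem differentiable_mr {f : ℂ → ℂ} (h : Differentiable ℂ f) : Differentiable ℂ (mr f) :=
  fun _ => differentiableAt_mr (h _)

theorem differentiableOn_mr {f : ℂ → ℂ} {ρ τ : ℝ} (h : DifferentiableOn ℂ f (Rc ρ τ))
    (ho : IsOpen (Rc ρ τ)) : DifferentiableOn ℂ (mr f) (Rc ρ τ) := by
  intro w hw
  apply DifferentiableAt.differentiableWithinAt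
  apply differentiableAt_mr
  exact h.differentiableAt (ho.mem_nhds ((rf_mem _ _ _).2 hw))

/-! ### The functions -/

theorem mr_upp (h : ℝ) (f : ℂ → ℂ) : upp h (mr f) = (starRingEnd ℂ) (upp h f) := by
  unfold upp
  rw [map_sub, map_add, map_mul, map_mul, Complex.conj_I, ← intervalIntegral.intervalIntegral_conj,
    ← intervalIntegral.intervalIntegral_conj, ← intervalIntegral.intervalIntegral_conj]
  have e1 : ∀ y : ℝ, -(starRingEnd ℂ) (-(π : ℂ) + y * Complex.I) = π + y * Complex.I := by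
    intro y
    rw [map_add, map_neg, map_mul, Complex.conj_ofReal, Complex.conj_ofReal, Complex.conj_I]
    ring
  have e2 : ∀ y : ℝ, -(starRingEnd ℂ) ((π : ℂ) + y * Complex.I) = -π + y * Complex.I := by
    intro y
    rw [map_add, map_mul, Complex.conj_ofReal, Complex.conj_ofReal, Complex.conj_I]
    ring
  have e3 : ∀ x : ℝ, -(starRingEnd ℂ) ((x : ℂ) + h * Complex.I) =
      ((-x : ℝ) : ℂ) + h * Complex.I := by
    intro x
    rw [map_add, map_mul, Complex.conj_ofReal, Complex.conj_ofReal, Complex.conj_I]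
    push_cast
    ring
  simp only [mr, rf, e1, e2, e3]
  have e4 : ∫ x in (-π)..π, (starRingEnd ℂ) (f (((-x : ℝ) : ℂ) + h * Complex.I)) =
      ∫ x in (-π)..π, (starRingEnd ℂ) (f ((x : ℂ) + h * Complex.I)) := by
    have := intervalIntegral.integral_comp_neg (a := -π) (b := π)
      (fun x : ℝ => (starRingEnd ℂ) (f ((x : ℂ) + h * Complex.I)))
    rw [this, neg_neg]
  rw [e4]
  ring

theorem cj_Ea (a : ℤ) (N : ℕ) (ψ : ℂ) :
    (starRingEnd ℂ) (Ea a N (rf ψ)) = Ea (-a) N ψ := by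
  unfold Ea rf
  rw [← Complex.exp_conj]
  congr 1
  simp only [map_div₀, map_mul, map_pow, map_neg, Complex.conj_conj, Complex.conj_I,
    Complex.conj_ofReal, map_intCast, map_natCast, map_ofNat]
  push_cast
  ring

theorem cj_Rp (N d : ℕ) (ψ : ℂ) :
    (starRingEnd ℂ) (Rp N d (rf ψ)) = Rp N d ψ := by
  unfold Rp rf
  rw [map_prod]
  refine Finset.prod_congr rfl fun j _ => ?_
  rw [map_add, map_mul, map_mul, Complex.conj_ofReal, ← Complex.cos_conj, map_neg,
    Complex.conj_conj, Complex.cos_neg, map_ofNat]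

theorem cj_ker (N : ℕ) (ψ φ : ℂ) :
    (starRingEnd ℂ) (ker N (rf ψ) (rf φ)) = ker N ψ φ := by
  unfold Pool.Agent.W711.HT.ker
  rw [map_sum]
  refine Finset.sum_congr rfl fun d _ => ?_
  rw [map_div₀, map_mul, cj_Rp, cj_Rp, map_pow, Complex.conj_ofReal]

theorem kr_odd (N : ℕ) (ψ : ℂ) : kr N (-ψ) = -kr N ψ := by
  unfold kr
  have h : Complex.cos ((N : ℂ) * (-ψ + π) / 2) ^ 2 = Complex.cos ((N : ℂ) * (ψ + π) / 2) ^ 2 := by
    have h1 : (N : ℂ) * (-ψ + π) / 2 = N * π - (N : ℂ) * (ψ + π) / 2 := by ring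
    have h2 := Complex.sin_nat_mul_pi N
    have h3 := Complex.sin_sq_add_cos_sq ((N : ℂ) * π)
    rw [h2] at h3
    rw [h1, Complex.cos_sub, h2]
    linear_combination (Complex.cos ((N : ℂ) * (ψ + π) / 2) ^ 2) * h3
  rw [h, Complex.sin_neg]
  ring

theorem cj_kr (N : ℕ) (ψ : ℂ) :
    (starRingEnd ℂ) (kr N (rf ψ)) = -kr N ψ := by
  unfold rf
  rw [kr_odd, map_neg]
  congr 1
  unfold kr
  simp only [map_div₀, map_mul, map_pow, ← Complex.sin_conj, ← Complex.cos_conj, map_add,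
    Complex.conj_conj, Complex.conj_ofReal, map_natCast, map_ofNat]

theorem cj_UN (N : ℕ) (ψ : ℂ) : (starRingEnd ℂ) (UN N (rf ψ)) = UN N ψ := by
  unfold UN rf
  rw [map_sum]
  refine Finset.sum_congr rfl fun j _ => ?_
  rw [← Complex.cos_conj]
  simp only [map_mul, map_sub, map_add, map_neg, Complex.conj_conj, Complex.conj_ofReal,
    map_natCast, map_ofNat, map_one]
  have h1 : ((N : ℂ) - 1 - 2 * j) * (-ψ + π) =
      -(((N : ℂ) - 1 - 2 * j) * (ψ + π) - (((N : ℤ) - 1 - 2 * j : ℤ) : ℂ) * (2 * π)) := by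
    push_cast
    ring
  rw [h1, Complex.cos_neg, Complex.cos_sub_int_mul_two_pi]

theorem cj_Eb (b : Bool) (a : ℤ) (N : ℕ) (ψ : ℂ) :
    (starRingEnd ℂ) (Eb b a N (rf ψ)) = Eb b (-a) N ψ := by
  unfold Eb
  rw [map_mul, cj_Ea]
  cases b <;> simp [cj_UN]

theorem upp_smul (h : ℝ) (c : ℂ) (f : ℂ → ℂ) : upp h (fun w => c * f w) = c * upp h f := by
  unfold upp
  simp only [intervalIntegral.integral_const_mul]
  ring

/-- the mirror image of one vertex and one edge -/
theorem mr_stpb (b : Bool) (a : ℤ) (X : ℕ → ℂ → ℂ) (N : ℕ) (φ : ℂ) :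
    mr (stpb b a X N) φ = -stpb b (-a) (fun N => mr (X N)) N φ := by
  have h1 : stpb b (-a) (fun N => mr (X N)) N φ =
      upp (1 / N) (fun w => (-1) * mr (fun w => Eb b a N w * X N w * ker N w (rf φ) * kr N w) w) := by
    unfold stpb
    congr 1
    funext w
    simp only [mr, map_mul, cj_Eb, cj_ker, cj_kr]
    ring
  rw [h1, upp_smul, mr_upp]
  unfold mr stpb
  ring

theorem mr_stp (a : ℤ) (X : ℕ → ℂ → ℂ) (N : ℕ) (φ : ℂ) :
    mr (stp a X N) φ = -stp (-a) (fun N => mr (X N)) N φ := by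
  have h1 : stp (-a) (fun N => mr (X N)) N φ =
      upp (1 / N) (fun w => (-1) * mr (fun w => Ea a N w * X N w * ker N w (rf φ) * kr N w) w) := by
    unfold stp
    congr 1
    funext w
    simp only [mr, map_mul, cj_Ea, cj_ker, cj_kr]
    ring
  rw [h1, upp_smul, mr_upp]
  unfold mr stp
  ring

theorem stp_smul (a : ℤ) (u : ℕ → ℂ) (X : ℕ → ℂ → ℂ) (N : ℕ) (φ : ℂ) :
    stp a (fun N w => u N * X N w) N φ = u N * stp a X N φ := by
  unfold stp
  rw [← upp_smul]
  congr 1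
  funext w
  ring

/-- the last integral -/
theorem mr_rt (a : ℤ) (X : ℕ → ℂ → ℂ) (N : ℕ) :
    upp (1 / N) (fun w => Ea a N w * mr (X N) w * kr N w) =
      -(starRingEnd ℂ) (upp (1 / N) fun w => Ea (-a) N w * X N w * kr N w) := by
  rw [← mr_upp, ← neg_one_mul, ← upp_smul]
  congr 1
  funext w
  simp only [mr, map_mul, cj_Ea, cj_kr, neg_neg]
  ring

/-! ### Potentials -/

theorem deriv_mr2 (S : ℂ → ℂ → ℂ) (ψ w : ℂ) :
    deriv (fun w => (starRingEnd ℂ) (S (rf ψ) (rf w))) w =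
      -(starRingEnd ℂ) (deriv (fun w => S (rf ψ) w) (rf w)) :=
  deriv_mr (fun w => S (rf ψ) w) w

theorem deriv_mr2' (S : ℂ → ℂ → ℂ) (ψ w : ℂ) :
    deriv (fun w => (starRingEnd ℂ) (S (rf w) (rf ψ))) w =
      -(starRingEnd ℂ) (deriv (fun w => S w (rf ψ)) (rf w)) :=
  deriv_mr (fun w => S w (rf ψ)) w

/-- the critical equation -/
theorem crit_mr (a : ℤ) (z x y : ℂ)
    (h : Complex.I * a * z / (2 * π) + Complex.I + x + y = 0) :
    Complex.I * (-a : ℤ) * rf z / (2 * π) + Complex.I + -(starRingEnd ℂ) x + -(starRingEnd ℂ) y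
      = 0 := by
  have h1 := congrArg (starRingEnd ℂ) h
  simp only [map_add, map_div₀, map_mul, Complex.conj_I, map_intCast, Complex.conj_ofReal,
    map_ofNat, map_zero] at h1
  unfold rf
  push_cast
  linear_combination -h1

theorem crit_mr' (a : ℤ) (z x : ℂ)
    (h : Complex.I * a * z / (2 * π) + Complex.I + x = 0) :
    Complex.I * (-a : ℤ) * rf z / (2 * π) + Complex.I + -(starRingEnd ℂ) x = 0 := by
  have h1 := crit_mr a z x 0 (by rw [add_zero]; exact h)
  simpa using h1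

/-- the critical value -/
theorem qq_mr (a : ℤ) (z x : ℂ) :
    (starRingEnd ℂ) (Complex.I * a * z ^ 2 / (4 * π) + Complex.I * z + x) =
      Complex.I * (-a : ℤ) * rf z ^ 2 / (4 * π) + Complex.I * rf z + (starRingEnd ℂ) x := by
  simp only [map_add, map_div₀, map_mul, Complex.conj_I, map_intCast, Complex.conj_ofReal,
    map_ofNat, map_pow]
  unfold rf
  push_cast
  ring

theorem conj_of_re {c : ℂ} (hc : c.re = 0) : (starRingEnd ℂ) c = -c := by
  apply Complex.ext <;> simp [hc]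

/-- the term of a vertex -/
theorem vt_mr (b : Bool) (a : ℤ) (z : ℂ) :
    vt b a (rf z) = (starRingEnd ℂ) (vt b (-a) z) +
      (if b then 2 * π * Complex.I else 0) := by
  cases b
  · simp only [vt, Bool.false_eq_true, if_false, add_zero]
    have h := qq_mr (-a) z 0
    simp only [add_zero, map_zero, neg_neg] at h
    exact h.symm
  · simp only [vt, if_true, map_mul, Complex.conj_I, Complex.conj_ofReal]
    ring

theorem CPu_mr {ρ τ r₀ : ℝ} {z : ℂ} (h : CPu ρ τ r₀ z) : CPu ρ τ r₀ (rf z) :=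
  ⟨(rf_mem _ _ _).2 h.mem, by rw [rf_im]; exact h.im, by rw [norm_rf]; exact h.sm⟩

theorem rc_open (ρ τ : ℝ) : IsOpen (Rc ρ τ) := by
  have h : Rc ρ τ = (fun z : ℂ => |z.re|) ⁻¹' Set.Iio ρ ∩ (fun z : ℂ => |z.im|) ⁻¹' Set.Iio τ := rfl
  rw [h]
  exact (isOpen_Iio.preimage (by fun_prop)).inter (isOpen_Iio.preimage (by fun_prop))

theorem GH_mr {ρ τ c C : ℝ} {G : ℂ → ℂ} (d : ℂ) (h : GH ρ τ c C G) :
    GH ρ τ c C (fun w => mr G w + d) := by
  have hd : ∀ w, deriv (deriv fun w => mr G w + d) w = (starRingEnd ℂ) (deriv (deriv G) (rf w)) := by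
    intro w
    have h1 : (deriv fun w => mr G w + d) = deriv (mr G) := by
      funext w
      exact deriv_add_const _
    rw [h1, deriv_deriv_mr]
  refine ⟨?_, ?_, ?_, ?_⟩
  · exact (differentiableOn_mr h.an (rc_open _ _)).add_const _
  · intro w hw
    change (starRingEnd ℂ) (G (rf (-w))) + d = (starRingEnd ℂ) (G (rf w)) + d
    rw [rf_neg, h.ev _ ((rf_mem _ _ _).2 hw)]
  · intro w hw
    rw [hd, Complex.conj_re]
    exact h.d2 _ ((rf_mem _ _ _).2 hw)
  · intro w hw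
    rw [hd, Complex.norm_conj]
    exact h.d2b _ ((rf_mem _ _ _).2 hw)

theorem MW_mr {X : ℕ → ℂ → ℂ} {F : ℂ → ℂ} {ρ τ : ℝ} (u : ℕ → ℂ) (hu : ∀ N, ‖u N‖ = 1) {d : ℂ}
    (hd : d.re = 0) (h : MW X F (Rc ρ τ)) :
    MW (fun N w => u N * mr (X N) w) (fun w => mr F w + d) (Rc ρ τ) := by
  intro ε hε
  filter_upwards [h ε hε] with N hN z hz
  obtain ⟨h1, h2⟩ := hN (rf z) ((rf_mem _ _ _).2 hz)
  have hu0 : u N ≠ 0 := by
    intro h0
    have := hu N
    rw [h0, norm_zero] at this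
    exact zero_ne_one this
  refine ⟨mul_ne_zero hu0 ?_, ?_⟩
  · change (starRingEnd ℂ) (X N (rf z)) ≠ 0
    rwa [Ne, map_eq_zero]
  · have e1 : ‖u N * mr (X N) z‖ = ‖X N (rf z)‖ := by
      rw [norm_mul, hu, one_mul]
      exact Complex.norm_conj _
    have e2 : (mr F z + d).re = (F (rf z)).re := by
      rw [Complex.add_re, hd, add_zero]
      exact Complex.conj_re _
    rw [e1, e2]
    exact h2

end Pool.Agent.N494.M1
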