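import Pool.Agent.N561.V.Mir
import Pool.Agent.N494.M1.Base

/-!
# Mirror images of packages (job M1)
-/

set_option autoImplicit false

namespace Pool.Agent.N494.M1

open Finset Filter Topology Metric
open Pool.Agent.W711.HT hiding XX
open Pool.Agent.TH563.UV
open Pool.Agent.TH563.V
open Pool.Agent.N561
open scoped Real

theorem GoodV_mr {ρ τ κ c C : ℝ} {t : ℕ} {X : ℕ → ℂ → ℂ} {F : ℂ → ℂ} (u : ℕ → ℂ)
    (hu : ∀ N, ‖u N‖ = 1) {d : ℂ} (hd : d.re = 0) (h : GoodV ρ τ κ c C t X F) :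
    GoodV ρ τ κ c C t (fun N w => u N * mr (X N) w) (fun w => mr F w + d) := by
  have e0 : (mr F 0 + d).re = (F 0).re := by
    rw [Complex.add_re, hd, add_zero]
    unfold mr
    rw [rf_zero]
    exact Complex.conj_re _
  refine ⟨fun N => ?_, fun N ψ => ?_, ?_, GH_mr d h.gh, MW_mr u hu hd h.mw, ?_⟩
  · exact (differentiable_const _).mul (differentiable_mr (h.an N))
  · change u N * (starRingEnd ℂ) (X N (rf (-ψ))) = u N * (starRingEnd ℂ) (X N (rf ψ))
    rw [rf_neg, h.ev]
  · rw [e0]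
    exact h.pos
  · filter_upwards [h.gl1] with N hN x y hx1 hx2 hy
    rw [e0, norm_mul, hu, one_mul]
    have e2 : rf (x + y * Complex.I) = ((-x : ℝ) : ℂ) + y * Complex.I := by
      unfold rf
      rw [map_add, map_mul, Complex.conj_ofReal, Complex.conj_ofReal, Complex.conj_I]
      push_cast
      ring
    have e1 : ‖mr (X N) (x + y * Complex.I)‖ = ‖X N (((-x : ℝ) : ℂ) + y * Complex.I)‖ := by
      unfold mr
      rw [Complex.norm_conj, e2]
    rw [e1]
    exact hN (-x) y (by rwa [abs_neg]) (by rwa [abs_neg]) hy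

theorem mul_cj {u : ℂ} (hu : ‖u‖ = 1) : u * (starRingEnd ℂ) u = 1 := by
  rw [Complex.mul_conj, Complex.normSq_eq_norm_sq, hu]
  norm_num

theorem d_Phi (Φ : ℂ → ℂ) (c z : ℂ) :
    deriv Φ (rf z) = -(starRingEnd ℂ) (deriv (fun φ => mr Φ φ + c) z) := by
  rw [deriv_add_const, deriv_mr]
  simp

theorem d_S1 (S : ℂ → ℂ → ℂ) (ψ z : ℂ) :
    deriv (fun w => mir2 S ψ w) (rf z) = -(starRingEnd ℂ) (deriv (fun w => S (rf ψ) w) z) := by
  have h := deriv_mr (fun w => S (rf ψ) w) (rf z)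
  rw [rf_rf] at h
  exact h

theorem d_S2 (S : ℂ → ℂ → ℂ) (ψ z : ℂ) :
    deriv (fun w => mir2 S w ψ) (rf z) = -(starRingEnd ℂ) (deriv (fun w => S w (rf ψ)) z) := by
  have h := deriv_mr (fun w => S w (rf ψ)) (rf z)
  rw [rf_rf] at h
  exact h

theorem d_S1' (S : ℂ → ℂ → ℂ) (φ z : ℂ) :
    deriv (fun w => mir2 S (rf z) w) φ = -(starRingEnd ℂ) (deriv (fun w => S z w) (rf φ)) := by
  have h := d_S1 S (rf z) (rf φ)
  rw [rf_rf, rf_rf] at h
  exact h

theorem d_S2' (S : ℂ → ℂ → ℂ) (φ z : ℂ) :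
    deriv (fun w => mir2 S w (rf z)) φ = -(starRingEnd ℂ) (deriv (fun w => S w z) (rf φ)) := by
  have h := d_S2 S (rf z) (rf φ)
  rw [rf_rf, rf_rf] at h
  exact h

theorem mir2_eq (S : ℂ → ℂ → ℂ) (ψ φ : ℂ) :
    mir2 S ψ φ = (starRingEnd ℂ) (S (rf ψ) (rf φ)) := rfl

/-- job M1 -/
theorem mirk : Pool.Agent.N561.S_MIRK := by
  intro n a z₀ S hK g hg
  obtain ⟨U, P, C, r₂, c₁, C₁, hK, hR⟩ := hK g hg
  refine ⟨{φ | rf φ ∈ U},
    fun j X Φ => ∃ (u : ℕ → ℂ) (c : ℂ), (∀ N, ‖u N‖ = 1) ∧ c.re = 0 ∧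
      P j (fun N φ => u N * mr (X N) φ) (fun φ => mr Φ φ + c),
    fun X Φ => ∃ (u : ℕ → ℂ) (c : ℂ), (∀ N, ‖u N‖ = 1) ∧ c.re = 0 ∧
      C (fun N φ => u N * mr (X N) φ) (fun φ => mr Φ φ + c),
    r₂, c₁, C₁, ⟨hK.hr₂, hK.hc₁, hK.hC₁, ?_, ?_, ?_, ?_⟩, ?_⟩
  · refine ⟨fun _ => 1, 0, fun _ => by simp, by simp, ?_⟩
    have h := hK.zero
    have e1 : (fun (_ : ℕ) (φ : ℂ) => (1 : ℂ) * mr (fun _ => 1) φ) = fun _ _ => 1 := by
      funext N φ
      simp [mr]
    have e2 : (fun φ : ℂ => mr (fun _ => 0) φ + 0) = fun _ => 0 := by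
      funext φ
      simp [mr]
    rw [e2]
    change P 0 (fun (_ : ℕ) (φ : ℂ) => (1 : ℂ) * mr (fun _ => 1) φ) _
    rw [e1]
    exact h
  · rintro j X Y Φ Φ' ⟨u, c, hu, hc, h1⟩ ⟨v, d, hv, hd, h2⟩
    refine ⟨fun N => u N * v N, c + d, fun N => by rw [norm_mul, hu, hv, one_mul],
      by rw [Complex.add_re, hc, hd, add_zero], ?_⟩
    have h := hK.succ j _ _ _ _ h1 h2
    have e1 : (fun (N : ℕ) (φ : ℂ) => u N * v N * mr (fun w => X N w * Y N w) φ) =
        fun N φ => u N * mr (X N) φ * (v N * mr (Y N) φ) := by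
      funext N φ
      simp only [mr, map_mul]
      ring
    have e2 : (fun φ : ℂ => mr (fun w => Φ w + Φ' w) φ + (c + d)) =
        fun φ => mr Φ φ + c + (mr Φ' φ + d) := by
      funext φ
      simp only [mr, map_add]
      ring
    rw [e2]
    change P (j + 1) (fun (N : ℕ) (φ : ℂ) => u N * v N * mr (fun w => X N w * Y N w) φ) _
    rw [e1]
    exact h
  · intro a₀ b₀ h1 h2 h3
    obtain ⟨κ₁, hκ, hS⟩ := hK.step a₀ b₀ h1 h2 h3
    refine ⟨κ₁, hκ, ?_⟩
    rintro X Φ ⟨u, c, hu, hc, hP⟩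
    obtain ⟨F1, zs1, hG, hZ⟩ := hS _ _ hP
    refine ⟨fun w => mr F1 w + c, fun ψ => rf (zs1 (rf ψ)), ?_, ?_⟩
    · have hG' := GoodV_mr (fun N => -(u N)) (fun N => by rw [norm_neg, hu]) hc hG
      have e1 : (fun (N : ℕ) (w : ℂ) => -(u N) *
          mr (stp a (fun N φ => u N * mr (X N) φ) N) w) = stp (-a) X := by
        funext N w
        have e2 : mr (stp a (fun N φ => u N * mr (X N) φ) N) w =
            (starRingEnd ℂ) (u N) * mr (stp a (fun N => mr (X N)) N) w := by
          unfold mr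
          rw [← map_mul, ← stp_smul]
        have e3 : (fun N => mr (mr (X N))) = X := by
          funext N
          exact mr_mr _
        rw [e2, mr_stp, e3]
        linear_combination (stp (-a) X N w) * mul_cj (hu N)
      rw [← e1]
      exact hG'
    · intro ψ hψ
      obtain ⟨q1, q2, q3, q4, q5⟩ := hZ (rf ψ) ((rf_mem _ _ _).2 hψ)
      set z1 := zs1 (rf ψ) with hz1
      refine ⟨?_, ?_, ?_, ?_, ?_⟩
      · change ‖rf z1 - rf z₀‖ ≤ g
        rw [← rf_sub, norm_rf]
        exact q1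
      · change rf (rf z1) ∈ U
        rw [rf_rf]
        exact q2
      · have h := crit_mr a z1 _ _ q3
        rw [← d_Phi, ← d_S1] at h
        exact h
      · change (starRingEnd ℂ) (F1 (rf ψ)) + c = qq (-a) Φ (rf z1) + mir2 S ψ (rf z1)
        rw [q4, mir2_eq, rf_rf, map_add]
        have h := qq_mr a z1 (mr Φ z1 + c)
        have e : (starRingEnd ℂ) (mr Φ z1 + c) = Φ (rf z1) - c := by
          rw [map_add, conj_of_re hc]
          unfold mr
          rw [Complex.conj_conj]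
          ring
        rw [e] at h
        unfold qq
        rw [h]
        ring
      · change HasDerivAt (fun w => mr F1 w + c) (deriv (fun w => mir2 S w (rf z1)) ψ) ψ
        rw [d_S2']
        exact (hasDerivAt_mr q5).add_const c
  · intro e r₀ κ₁ c C' h1 h2 h3 h4 h5 h6
    obtain ⟨K, hK0, hS⟩ := hK.kid e r₀ κ₁ c C' h1 h2 h3 h4 h5 h6
    refine ⟨K, hK0, ?_⟩
    intro t X F hG b a' hb
    have hG1 : GoodV e e κ₁ c C' t (fun N => mr (X N)) (mr F) := by
      have h := GoodV_mr (fun _ => 1) (fun _ => by simp) (d := 0) (by simp) hG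
      simpa only [one_mul, add_zero] using h
    obtain ⟨F1, zs1, hC, hZ⟩ := hS t (fun N => mr (X N)) (mr F) hG1 b (-a') (fun h => by
      have := hb h
      push_cast at this ⊢
      rw [neg_sq]
      exact this)
    set d : ℂ := if b then 2 * π * Complex.I else 0 with hd
    have hd0 : d.re = 0 := by
      rw [hd]
      cases b <;> simp
    refine ⟨fun w => mr F1 w + d, fun φ => rf (zs1 (rf φ)), ⟨fun _ => -1, d,
      fun _ => by simp, hd0, ?_⟩, ?_⟩
    · have e1 : (fun (N : ℕ) (w : ℂ) => -1 * mr (stpb b a' X N) w) =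
          stpb b (-a') (fun N => mr (X N)) := by
        funext N w
        rw [mr_stpb]
        ring
      have e2 : (fun w => mr (fun w => mr F1 w + d) w + d) = F1 := by
        funext w
        change (starRingEnd ℂ) ((starRingEnd ℂ) (F1 (rf (rf w))) + d) + d = F1 w
        rw [map_add, conj_of_re hd0, rf_rf, Complex.conj_conj]
        ring
      rw [e2, e1]
      exact hC
    · intro φ hφ
      obtain ⟨q1, q2, q3, q4, q5, q6⟩ := hZ (rf φ) hφ
      set z1 := zs1 (rf φ) with hz1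
      refine ⟨(rf_mem _ _ _).2 q1, by rw [norm_rf]; exact q2, fun h => by
          change rf z1 = 0
          rw [q3 h, rf_zero],
        fun h => ⟨CPu_mr (q4 h).1, ?_⟩, ?_, ?_⟩
      · have h' := crit_mr (-a') z1 _ _ (q4 h).2
        have e0 : deriv F (rf z1) = -(starRingEnd ℂ) (deriv (mr F) z1) := by
          rw [deriv_mr]
          simp
        rw [← e0, ← d_S2, neg_neg] at h'
        exact h'
      · change (starRingEnd ℂ) (F1 (rf φ)) + d = vt b a' (rf z1) + F (rf z1) + mir2 S (rf z1) φ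
        rw [q5, mir2_eq, rf_rf, map_add, map_add, vt_mr]
        unfold mr
        rw [Complex.conj_conj]
        ring
      · change HasDerivAt (fun w => mr F1 w + d) (deriv (fun w => mir2 S (rf z1) w) φ) φ
        rw [d_S1']
        exact (hasDerivAt_mr q6).add_const d
  · rintro X Φ ⟨u, c, hu, hc, hP⟩
    obtain ⟨z, q1, q2, q3, q4⟩ := hR _ _ hP
    refine ⟨rf z, ?_, ?_, ?_, ?_⟩
    · change ‖rf z - rf z₀‖ ≤ g
      rw [← rf_sub, norm_rf]
      exact q1
    · change rf (rf z) ∈ U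
      rw [rf_rf]
      exact q2
    · have h := crit_mr' a z _ q3
      rw [← d_Phi] at h
      exact h
    · have e1 : (qq (-a) Φ (rf z)).re = (qq a (fun φ => mr Φ φ + c) z).re := by
        have h := qq_mr a z (mr Φ z + c)
        have e : (starRingEnd ℂ) (mr Φ z + c) = Φ (rf z) - c := by
          rw [map_add, conj_of_re hc]
          unfold mr
          rw [Complex.conj_conj]
          ring
        rw [e] at h
        have h2 := congrArg Complex.re h
        rw [Complex.conj_re] at h2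
        unfold qq
        rw [h2]
        simp only [Complex.add_re, Complex.sub_re, hc, sub_zero]
      have e2 : ∀ N : ℕ, ‖upp (1 / N) fun φ => Ea a N φ * (u N * mr (X N) φ) * kr N φ‖ =
          ‖upp (1 / N) fun φ => Ea (-a) N φ * X N φ * kr N φ‖ := by
        intro N
        have e3 : (fun φ => Ea a N φ * (u N * mr (X N) φ) * kr N φ) =
            fun φ => u N * (Ea a N φ * mr (X N) φ * kr N φ) := by
          funext φ
          ring
        rw [e3, upp_smul, mr_rt, norm_mul, hu, one_mul, norm_neg, Complex.norm_conj]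
      rw [e1]
      refine q4.congr fun N => ?_
      rw [e2]

end Pool.Agent.N494.M1
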